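import Mathlib

/-!
# Squeezed complexes of shifted order ideals
-/

set_option autoImplicit false

namespace Pool.Agent.Helper221.SQ

open Finset

/-- A shifted order ideal in `P(m) = K[x_1, ..., x_m]`; the monomial `x_{i_1} ⋯ x_{i_s}` is
represented by the multiset `{i_1, ..., i_s}` of its indices. -/
structure ShiftedIdeal (m : ℕ) where
  U : Finset (Multiset ℕ)
  vars : ∀ u ∈ U, ∀ i ∈ u, 1 ≤ i ∧ i ≤ m
  one_mem : 0 ∈ U
  var_mem : ∀ i, 1 ≤ i → i ≤ m → {i} ∈ U
  div : ∀ u ∈ U, ∀ v ≤ u, v ∈ U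
  shift : ∀ (u : Multiset ℕ) (i j : ℕ), i ::ₘ u ∈ U → i < j → j ≤ m → j ::ₘ u ∈ U

/-- the largest degree of a monomial in the ideal -/
def ShiftedIdeal.dmax {m : ℕ} (I : ShiftedIdeal m) : ℕ := I.U.sup Multiset.card

/-- the index `i_{k+1}` of the monomial `x_{i_1} ⋯ x_{i_s}`, `i_1 ≤ ... ≤ i_s` -/
def idx (u : Multiset ℕ) (k : ℕ) : ℕ := (u.sort (· ≤ ·)).getD k 0

/-- the set `F_t(u)` (the indices `k` start at `0` here) -/
def FF (m d t : ℕ) (u : Multiset ℕ) : Finset ℕ :=
  if Multiset.card u ≤ t then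
    (range (Multiset.card u)).biUnion (fun k => {idx u k + 2 * k, idx u k + 2 * k + 1}) ∪
      Icc (m + 2 * Multiset.card u + 1) (m + t + d)
  else
    (range t).biUnion (fun k => {idx u k + 2 * k, idx u k + 2 * k + 1}) ∪
      (Ico t (Multiset.card u)).image (fun k => idx u k + k + t) ∪
      Icc (m + t + Multiset.card u + 1) (m + t + d)

/-- the facets of the squeezed complex `Δ_t(U)` -/
def ShiftedIdeal.facets {m : ℕ} (I : ShiftedIdeal m) (t : ℕ) : Finset (Finset ℕ) :=
  I.U.image (FF m I.dmax t)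

/-- The realization, in barycentric coordinates, of the complex with set of facets `L`. -/
def realization (L : Finset (Finset ℕ)) : Set (ℕ → ℝ) :=
  {x | (∀ v, 0 ≤ x v) ∧ ∃ F ∈ L, (∀ v, v ∉ F → x v = 0) ∧ ∑ v ∈ F, x v = 1}

/-- The complex with set of facets `L` is a ball of dimension `n`. -/
def IsBall (L : Finset (Finset ℕ)) (n : ℕ) : Prop :=
  Nonempty (realization L ≃ₜ Metric.closedBall (0 : EuclideanSpace ℝ (Fin n)) 1)

/-- The faces of the boundary of the pure complex with set of facets `L`: the subsets of the sets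
`F \ {v}`, `v ∈ F ∈ L`, that are contained in exactly one facet. -/
def bdry (L : Finset (Finset ℕ)) : Set (Finset ℕ) :=
  {σ | ∃ F ∈ L, ∃ v ∈ F, (∀ G ∈ L, F.erase v ⊆ G → G = F) ∧ σ ⊆ F.erase v}

/-- Simplicial isomorphism of the complexes with families of faces `A` and `B`: a map, injective
on the vertices of `A`, takes the faces of `A` onto the faces of `B`. -/
def Iso (A B : Set (Finset ℕ)) : Prop :=
  ∃ f : ℕ → ℕ, Set.InjOn f {v | ∃ σ ∈ A, v ∈ σ} ∧ B = {τ | ∃ σ ∈ A, σ.image f = τ}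

/-- The complex with family of faces `S` is a Kalai squeezed sphere. -/
def IsSqueezedSphere (S : Set (Finset ℕ)) : Prop :=
  ∃ (m : ℕ) (I : ShiftedIdeal m) (t : ℕ), I.dmax ≤ t ∧ Iso (bdry (I.facets t)) S

end Pool.Agent.Helper221.SQ
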