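import Pool.Agent.Helper221.SQ.Main

/-!
# Kalai squeezed 3-spheres have three vertices joined to all others
-/

set_option autoImplicit false

namespace Pool.Agent.Helper221.SQ

open Finset

variable {m : ℕ} (I : ShiftedIdeal m) {t : ℕ}

theorem card_le_dmax {u : Multiset ℕ} (hu : u ∈ I.U) : Multiset.card u ≤ I.dmax :=
  le_sup (f := Multiset.card) hu

theorem FF_card_le {d t : ℕ} (hdt : d ≤ t) {u : Multiset ℕ} (hu : Multiset.card u ≤ d) :
    (FF m d t u).card ≤ t + d := by
  rw [FF, if_pos (hu.trans hdt)]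
  refine (card_union_le _ _).trans ?_
  have h1 : ((range (Multiset.card u)).biUnion
      (fun k => ({idx u k + 2 * k, idx u k + 2 * k + 1} : Finset ℕ))).card ≤
      2 * Multiset.card u := by
    refine card_biUnion_le.trans ?_
    refine (sum_le_card_nsmul _ _ 2 fun k _ => card_le_two).trans ?_
    rw [card_range, smul_eq_mul, mul_comm]
  rw [Nat.card_Icc]
  omega

theorem idx_mem {u : Multiset ℕ} (hu : 0 < Multiset.card u) : idx u 0 ∈ u := by
  rw [idx, List.getD_eq_getElem _ _ (by rw [Multiset.length_sort]; exact hu)]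
  rw [← Multiset.mem_sort (r := (· ≤ ·))]
  exact List.getElem_mem _

theorem mem_facets {G : Finset ℕ} : G ∈ I.facets t ↔ ∃ u ∈ I.U, FF m I.dmax t u = G := by
  rw [ShiftedIdeal.facets, mem_image]

theorem top_mem : Icc (m + 1) (m + t + I.dmax) ∈ I.facets t :=
  (mem_facets I).2 ⟨0, I.one_mem, FF0 _ _ _⟩

/-- the total dimension is determined -/
theorem total_eq (ht : I.dmax ≤ t) {f : ℕ → ℕ}
    (hf : Set.InjOn f {v | ∃ σ ∈ bdry (I.facets t), v ∈ σ})
    (hB : bdry LL = {τ | ∃ σ ∈ bdry (I.facets t), σ.image f = τ}) : t + I.dmax = 5 := by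
  have hcard : ∀ G ∈ I.facets t, G.card ≤ t + I.dmax := by
    intro G hG
    obtain ⟨u, hu, rfl⟩ := (mem_facets I).1 hG
    exact FF_card_le ht (card_le_dmax I hu)
  have hge : 5 ≤ t + I.dmax := by
    have h4 : ({1, 2, 6, 7} : Finset ℕ) ∈ bdry LL := four
    rw [hB] at h4
    obtain ⟨σ, ⟨F, hF, v, hv, -, hσ⟩, h5⟩ := h4
    have h6 : 4 ≤ σ.card := by
      have : (σ.image f).card ≤ σ.card := card_image_le
      rw [h5] at this
      exact this
    have h7 := (card_le_card hσ).trans (le_of_eq (card_erase_of_mem hv))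
    have h8 := hcard F hF
    omega
  have hmem : (Icc (m + 1) (m + t + I.dmax)).erase (m + 1) ∈ bdry (I.facets t) := by
    refine ⟨_, top_mem I, m + 1, mem_Icc.2 ⟨le_refl _, by omega⟩, ?_, Subset.refl _⟩
    intro G hG hsub
    obtain ⟨u, hu, rfl⟩ := (mem_facets I).1 hG
    rcases Nat.eq_zero_or_pos (Multiset.card u) with h | h
    · rw [Multiset.card_eq_zero.1 h, FF0]
    · exfalso
      have h1 := I.vars u hu _ (idx_mem h)
      have hle := card_le_dmax I hu
      have h2 : idx u 0 ∈ FF m I.dmax t u ∧ idx u 0 + 1 ∈ FF m I.dmax t u := by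
        rw [FF, if_pos (hle.trans ht)]
        constructor <;>
        · refine mem_union_left _ (mem_biUnion.2 ⟨0, mem_range.2 h, ?_⟩)
          simp
      have h3 : insert (idx u 0) (insert (idx u 0 + 1)
          ((Icc (m + 1) (m + t + I.dmax)).erase (m + 1))) ⊆ FF m I.dmax t u :=
        insert_subset h2.1 (insert_subset h2.2 hsub)
      have h4 := card_le_card h3
      rw [card_insert_of_notMem, card_insert_of_notMem, card_erase_of_mem, Nat.card_Icc] at h4
      · have h5 := FF_card_le (m := m) ht hle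
        omega
      · exact mem_Icc.2 ⟨le_refl _, by omega⟩
      · simp only [mem_erase, mem_Icc]
        omega
      · simp only [mem_insert, mem_erase, mem_Icc]
        omega
  have hle : t + I.dmax ≤ 5 := by
    have h1 : ((Icc (m + 1) (m + t + I.dmax)).erase (m + 1)).image f ∈ bdry LL := by
      rw [hB]
      exact ⟨_, hmem, rfl⟩
    have h2 : (((Icc (m + 1) (m + t + I.dmax)).erase (m + 1)).image f).card =
        ((Icc (m + 1) (m + t + I.dmax)).erase (m + 1)).card := by
      refine card_image_of_injOn (hf.mono ?_)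
      intro v hv
      exact ⟨_, hmem, hv⟩
    obtain ⟨F, hF, v, hv, -, hσ⟩ := h1
    have h3 := card_le_card hσ
    rw [h2, card_erase_of_mem hv, LL_card F hF, card_erase_of_mem (mem_Icc.2 ⟨le_refl _, by omega⟩),
      Nat.card_Icc] at h3
    omega
  omega

theorem facet_form (ht : I.dmax ≤ t) (h5 : t + I.dmax = 5) {G : Finset ℕ} (hG : G ∈ I.facets t) :
    G = Icc (m + 1) (m + 5) ∨ (∃ i, 1 ≤ i ∧ i ≤ m ∧ G = {i, i + 1, m + 3, m + 4, m + 5}) ∨
      ∃ i j, 1 ≤ i ∧ i ≤ j ∧ j ≤ m ∧ G = {i, i + 1, j + 2, j + 3, m + 5} := by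
  obtain ⟨u, hu, rfl⟩ := (mem_facets I).1 hG
  have hc := card_le_dmax I hu
  have hc' : Multiset.card u = 0 ∨ Multiset.card u = 1 ∨ Multiset.card u = 2 := by omega
  have e5 : m + t + I.dmax = m + 5 := by omega
  rcases hc' with h | h | h
  · left
    rw [Multiset.card_eq_zero.1 h, FF0, e5]
  · right; left
    obtain ⟨i, rfl⟩ := Multiset.card_eq_one.1 h
    have hi := I.vars _ hu i (Multiset.mem_singleton_self i)
    refine ⟨i, hi.1, hi.2, ?_⟩
    rw [FF1 _ _ _ _ (by omega), e5]
    ext x
    simp only [mem_union, mem_insert, mem_singleton, mem_Icc]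
    omega
  · right; right
    obtain ⟨x, y, rfl⟩ := Multiset.card_eq_two.1 h
    have hx := I.vars _ hu x (by simp)
    have hy := I.vars _ hu y (by simp)
    rcases le_total x y with hxy | hxy
    · refine ⟨x, y, hx.1, hxy, hy.2, ?_⟩
      rw [FF2 _ _ _ _ _ (by omega) hxy, e5]
      ext z
      simp only [mem_union, mem_insert, mem_singleton, mem_Icc]
      omega
    · refine ⟨y, x, hy.1, hxy, hx.2, ?_⟩
      rw [Multiset.pair_comm, FF2 _ _ _ _ _ (by omega) hxy, e5]
      ext z
      simp only [mem_union, mem_insert, mem_singleton, mem_Icc]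
      omega

theorem var_facet (ht : I.dmax ≤ t) (h5 : t + I.dmax = 5) {i : ℕ} (h1 : 1 ≤ i) (h2 : i ≤ m) :
    ({i, i + 1, m + 3, m + 4, m + 5} : Finset ℕ) ∈ I.facets t := by
  refine (mem_facets I).2 ⟨{i}, I.var_mem i h1 h2, ?_⟩
  rw [FF1 _ _ _ _ (by omega)]
  ext x
  simp only [mem_union, mem_insert, mem_singleton, mem_Icc]
  omega

theorem one_facet (h5 : t + I.dmax = 5) : Icc (m + 1) (m + 5) ∈ I.facets t := by
  have := top_mem I (t := t)
  rwa [show m + t + I.dmax = m + 5 by omega] at this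

/-- ridges of the facet of a variable -/
theorem var_ridge (ht : I.dmax ≤ t) (h5 : t + I.dmax = 5) {i : ℕ} (h1 : 1 ≤ i) (h2 : i ≤ m)
    {v : ℕ} (hv : v = m + 3 ∨ v = m + 5) {σ : Finset ℕ}
    (hσ : σ ⊆ ({i, i + 1, m + 3, m + 4, m + 5} : Finset ℕ).erase v) : σ ∈ bdry (I.facets t) := by
  refine ⟨_, var_facet I ht h5 h1 h2, v, ?_, ?_, hσ⟩
  · simp only [mem_insert, mem_singleton]
    omega
  · intro G hG hsub
    have e1 : i ∈ G := hsub (mem_erase.2 ⟨by omega, by simp⟩)
    have e2 : i + 1 ∈ G := hsub (mem_erase.2 ⟨by omega, by simp⟩)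
    have e3 : m + 4 ∈ G := hsub (mem_erase.2 ⟨by omega, by simp⟩)
    rcases facet_form I ht h5 hG with rfl | ⟨i', h3, h4, rfl⟩ | ⟨i', j, h3, h4, h6, rfl⟩
    · rw [mem_Icc] at e1; omega
    · simp only [mem_insert, mem_singleton] at e1 e2
      have : i' = i := by omega
      rw [this]
    · simp only [mem_insert, mem_singleton] at e3
      omega

/-- ridges of the top facet -/
theorem one_ridge (ht : I.dmax ≤ t) (h5 : t + I.dmax = 5)
    {v : ℕ} (hv : v = m + 1 ∨ v = m + 3 ∨ v = m + 5) {σ : Finset ℕ}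
    (hσ : σ ⊆ (Icc (m + 1) (m + 5)).erase v) : σ ∈ bdry (I.facets t) := by
  refine ⟨_, one_facet I h5, v, ?_, ?_, hσ⟩
  · rw [mem_Icc]
    omega
  · intro G hG hsub
    have e1 : m + 2 ∈ G := hsub (by simp only [mem_erase, mem_Icc]; omega)
    have e3 : m + 4 ∈ G := hsub (by simp only [mem_erase, mem_Icc]; omega)
    rcases facet_form I ht h5 hG with rfl | ⟨i', h3, h4, rfl⟩ | ⟨i', j, h3, h4, h6, rfl⟩
    · rfl
    · simp only [mem_insert, mem_singleton] at e1
      omega
    · simp only [mem_insert, mem_singleton] at e3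
      omega

theorem vertex_range (ht : I.dmax ≤ t) (h5 : t + I.dmax = 5) {σ : Finset ℕ}
    (hσ : σ ∈ bdry (I.facets t)) {v : ℕ} (hv : v ∈ σ) : 1 ≤ v ∧ v ≤ m + 5 := by
  obtain ⟨F, hF, w, hw, -, hsub⟩ := hσ
  have h1 := mem_of_mem_erase (hsub hv)
  rcases facet_form I ht h5 hF with rfl | ⟨i', h3, h4, rfl⟩ | ⟨i', j, h3, h4, h6, rfl⟩
  · rw [mem_Icc] at h1; omega
  · simp only [mem_insert, mem_singleton] at h1; omega
  · simp only [mem_insert, mem_singleton] at h1; omega

/-- the vertices `m + 3`, `m + 4`, `m + 5` are joined to all others -/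
theorem joined (ht : I.dmax ≤ t) (h5 : t + I.dmax = 5) {v w : ℕ} (hv1 : 1 ≤ v) (hv2 : v ≤ m + 5)
    (hw1 : m + 3 ≤ w) (hw2 : w ≤ m + 5) : ({v, w} : Finset ℕ) ∈ bdry (I.facets t) := by
  rcases Nat.lt_or_ge m v with h | h
  · -- both in the top facet
    rcases Nat.lt_or_ge (m + 1) v with h' | h'
    · refine one_ridge I ht h5 (v := m + 1) (Or.inl rfl) ?_
      intro x hx
      simp only [mem_insert, mem_singleton] at hx
      simp only [mem_erase, mem_Icc]
      omega
    · rcases Nat.lt_or_ge w (m + 5) with h'' | h''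
      · refine one_ridge I ht h5 (v := m + 5) (Or.inr (Or.inr rfl)) ?_
        intro x hx
        simp only [mem_insert, mem_singleton] at hx
        simp only [mem_erase, mem_Icc]
        omega
      · refine one_ridge I ht h5 (v := m + 3) (Or.inr (Or.inl rfl)) ?_
        intro x hx
        simp only [mem_insert, mem_singleton] at hx
        simp only [mem_erase, mem_Icc]
        omega
  · rcases Nat.lt_or_ge w (m + 5) with h'' | h''
    · refine var_ridge I ht h5 hv1 h (v := m + 5) (Or.inr rfl) ?_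
      intro x hx
      simp only [mem_insert, mem_singleton] at hx
      simp only [mem_erase, mem_insert, mem_singleton]
      omega
    · refine var_ridge I ht h5 hv1 h (v := m + 3) (Or.inl rfl) ?_
      intro x hx
      simp only [mem_insert, mem_singleton] at hx
      simp only [mem_erase, mem_insert, mem_singleton]
      omega

theorem not_squeezed : ¬ IsSqueezedSphere (bdry (I0.facets 2)) := by
  rw [I0_facets]
  rintro ⟨m, I, t, ht, f, hf, hB⟩
  have h5 := total_eq I ht hf hB
  have hv : ∀ w, m + 3 ≤ w → w ≤ m + 5 → w ∈ {v | ∃ σ ∈ bdry (I.facets t), v ∈ σ} := by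
    intro w h1 h2
    exact ⟨{w, w}, joined I ht h5 (by omega) h2 h1 h2, by simp⟩
  have key : ∀ w, m + 3 ≤ w → w ≤ m + 5 → f w = 7 ∨ f w = 8 := by
    intro w h1 h2
    refine univ_vertex (f w) ?_ ?_
    · rw [hB]
      refine ⟨{w, w}, joined I ht h5 (by omega) h2 h1 h2, ?_⟩
      simp
    · intro z hz hzw
      rw [hB] at hz
      obtain ⟨σ, hσ, h3⟩ := hz
      have h4 : z ∈ σ.image f := by rw [h3]; exact mem_singleton_self z
      obtain ⟨v, hvσ, rfl⟩ := mem_image.1 h4
      have hr := vertex_range I ht h5 hσ hvσ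
      rw [hB]
      refine ⟨{v, w}, joined I ht h5 hr.1 hr.2 h1 h2, ?_⟩
      rw [image_insert, image_singleton]
  have k1 := key (m + 3) (by omega) (by omega)
  have k2 := key (m + 4) (by omega) (by omega)
  have k3 := key (m + 5) (by omega) (by omega)
  have n1 : f (m + 3) ≠ f (m + 4) := fun h => by
    have := hf (hv _ (by omega) (by omega)) (hv _ (by omega) (by omega)) h
    omega
  have n2 : f (m + 3) ≠ f (m + 5) := fun h => by
    have := hf (hv _ (by omega) (by omega)) (hv _ (by omega) (by omega)) h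
    omega
  have n3 : f (m + 4) ≠ f (m + 5) := fun h => by
    have := hf (hv _ (by omega) (by omega)) (hv _ (by omega) (by omega)) h
    omega
  omega

end Pool.Agent.Helper221.SQ
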