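import Pool.Agent.Helper221.SQ.Defs
import Pool.Agent.W296.NP.Chain
import Pool.Agent.H933R3.Ball

/-!
# A squeezed ball whose boundary is not a Kalai squeezed sphere
-/

set_option autoImplicit false

namespace Pool.Agent.Helper221.SQ

open Finset Pool.Agent.Helper175.NS Pool.Agent.W296.NP

/-! ### The sets `F_t(u)` for monomials of small degree -/

theorem idx_cons_zero (a : ℕ) (s : Multiset ℕ) (h : ∀ b ∈ s, a ≤ b) : idx (a ::ₘ s) 0 = a := by
  rw [idx, Multiset.sort_cons _ _ _ h]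
  rfl

theorem idx_cons_succ (a : ℕ) (s : Multiset ℕ) (h : ∀ b ∈ s, a ≤ b) (k : ℕ) :
    idx (a ::ₘ s) (k + 1) = idx s k := by
  rw [idx, Multiset.sort_cons _ _ _ h]
  rfl

theorem FF0 (m d t : ℕ) : FF m d t 0 = Icc (m + 1) (m + t + d) := by
  rw [FF, if_pos (by simp)]
  simp

theorem FF1 (m d t i : ℕ) (ht : 1 ≤ t) :
    FF m d t {i} = {i, i + 1} ∪ Icc (m + 3) (m + t + d) := by
  rw [FF, if_pos (by simpa using ht)]
  have h0 : idx {i} 0 = i := idx_cons_zero i 0 (by simp)
  rw [Multiset.card_singleton, range_one, singleton_biUnion, h0]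
  rfl

theorem FF2 (m d t i j : ℕ) (ht : 2 ≤ t) (hij : i ≤ j) :
    FF m d t {i, j} = {i, i + 1, j + 2, j + 3} ∪ Icc (m + 5) (m + t + d) := by
  have h0 : idx {i, j} 0 = i := idx_cons_zero i {j} (by simpa using hij)
  have h1 : idx {i, j} 1 = j := by
    have := idx_cons_succ i {j} (by simpa using hij) 0
    rw [show (0 : ℕ) + 1 = 1 from rfl] at this
    exact this.trans (idx_cons_zero j 0 (by simp))
  have hc : Multiset.card ({i, j} : Multiset ℕ) = 2 := rfl
  rw [FF, if_pos (by rw [hc]; exact ht), hc]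
  have h2 : (range 2).biUnion (fun k => ({idx {i, j} k + 2 * k, idx {i, j} k + 2 * k + 1} :
      Finset ℕ)) = {i, i + 1, j + 2, j + 3} := by
    ext x
    simp only [mem_biUnion, mem_range, mem_insert, mem_singleton]
    constructor
    · rintro ⟨k, hk, h⟩
      have : k = 0 ∨ k = 1 := by omega
      rcases this with rfl | rfl
      · rw [h0] at h; omega
      · rw [h1] at h; omega
    · rintro (h | h | h | h)
      · exact ⟨0, by norm_num, by rw [h0]; omega⟩
      · exact ⟨0, by norm_num, by rw [h0]; omega⟩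
      · exact ⟨1, by norm_num, by rw [h1]; omega⟩
      · exact ⟨1, by norm_num, by rw [h1]; omega⟩
  rw [h2]

/-! ### The example -/

/-- The ideal `{1, x₁, x₂, x₃, x₃², x₃³}`. -/
def I0 : ShiftedIdeal 3 where
  U := {0, {1}, {2}, {3}, {3, 3}, {3, 3, 3}}
  vars := by decide
  one_mem := by decide
  var_mem := by
    intro i h1 h2
    interval_cases i <;> decide
  div := by
    have h : ∀ u ∈ ({0, {1}, {2}, {3}, {3, 3}, {3, 3, 3}} : Finset (Multiset ℕ)),
        ∀ v ∈ u.powerset, v ∈ ({0, {1}, {2}, {3}, {3, 3}, {3, 3, 3}} : Finset (Multiset ℕ)) := by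
      decide
    intro u hu v hv
    exact h u hu v (Multiset.mem_powerset.2 hv)
  shift := by
    intro u i j h hij hj
    have hi : i < 3 := by omega
    have hmem : i ∈ i ::ₘ u := Multiset.mem_cons_self i u
    simp only [mem_insert, mem_singleton] at h
    rcases h with h | h | h | h | h | h
    · rw [h] at hmem; simp at hmem
    · obtain ⟨h1, h2⟩ := (Multiset.singleton_eq_cons_iff u).1 h.symm
      subst h2
      interval_cases j <;> first | omega | decide
    · obtain ⟨h1, h2⟩ := (Multiset.singleton_eq_cons_iff u).1 h.symm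
      subst h2
      interval_cases j <;> first | omega | decide
    · rw [h] at hmem; simp at hmem; omega
    · rw [h] at hmem; simp at hmem; omega
    · rw [h] at hmem; simp at hmem; omega

theorem I0_dmax : I0.dmax = 3 := by decide

/-- the facets of the example, as bit masks -/
def SL : List ℕ := [496, 454, 460, 472, 376, 248]

theorem idx333 (k : ℕ) (hk : k < 3) : idx {3, 3, 3} k = 3 := by
  have e : ({3, 3, 3} : Multiset ℕ) = 3 ::ₘ 3 ::ₘ {3} := rfl
  interval_cases k
  · exact idx_cons_zero 3 _ (by decide)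
  · exact (idx_cons_succ 3 _ (by decide) 0).trans (idx_cons_zero 3 _ (by decide))
  · exact (idx_cons_succ 3 _ (by decide) 1).trans ((idx_cons_succ 3 _ (by decide) 0).trans
      (idx_cons_zero 3 0 (by simp)))

theorem FF333 : FF 3 3 2 {3, 3, 3} = {3, 4, 5, 6, 7} := by
  have hc : Multiset.card ({3, 3, 3} : Multiset ℕ) = 3 := rfl
  rw [FF, if_neg (by rw [hc]; norm_num), hc]
  ext x
  simp only [mem_union, mem_biUnion, mem_image, mem_range, mem_Ico, mem_Icc, mem_insert,
    mem_singleton]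
  constructor
  · rintro ((⟨k, hk, h⟩ | ⟨k, hk, h⟩) | h)
    · rw [idx333 k (by omega)] at h; omega
    · rw [idx333 k (by omega)] at h; omega
    · omega
  · rintro (h | h | h | h | h)
    · exact Or.inl (Or.inl ⟨0, by norm_num, by rw [idx333 0 (by norm_num)]; omega⟩)
    · exact Or.inl (Or.inl ⟨0, by norm_num, by rw [idx333 0 (by norm_num)]; omega⟩)
    · exact Or.inl (Or.inl ⟨1, by norm_num, by rw [idx333 1 (by norm_num)]; omega⟩)
    · exact Or.inl (Or.inl ⟨1, by norm_num, by rw [idx333 1 (by norm_num)]; omega⟩)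
    · exact Or.inl (Or.inr ⟨2, by norm_num, by rw [idx333 2 (by norm_num)]; omega⟩)

/-- the facets of the example -/
def LL : Finset (Finset ℕ) :=
  {{4, 5, 6, 7, 8}, {1, 2, 6, 7, 8}, {2, 3, 6, 7, 8}, {3, 4, 6, 7, 8}, {3, 4, 5, 6, 8},
    {3, 4, 5, 6, 7}}

theorem I0_facets : I0.facets 2 = LL := by
  rw [ShiftedIdeal.facets, I0_dmax]
  show ({0, {1}, {2}, {3}, {3, 3}, {3, 3, 3}} : Finset (Multiset ℕ)).image (FF 3 3 2) = LL
  rw [image_insert, image_insert, image_insert, image_insert, image_insert, image_singleton,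
    FF0, FF1 _ _ _ _ (by norm_num), FF1 _ _ _ _ (by norm_num), FF1 _ _ _ _ (by norm_num),
    FF2 _ _ _ _ _ (by norm_num) (le_refl _), FF333]
  decide +kernel

theorem SL_eq : deL SL = LL := by decide +kernel

theorem chain_ok : chainE SL [(16, 424), (8, 36), (4, 34)] [482] = true := by decide +kernel

theorem I0_ball : IsBall (I0.facets 2) (I0.dmax + 2 - 1) := by
  have hd : I0.dmax + 2 - 1 = 4 := by rw [I0_dmax]
  rw [hd, I0_facets, IsBall]
  obtain ⟨e2⟩ := chainE_homeo [(16, 424), (8, 36), (4, 34)] SL [482] (by decide +kernel) chain_ok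
  have h1 : deL [482] = {de 482} := rfl
  rw [h1, SL_eq] at e2
  obtain ⟨e3⟩ := Pool.Agent.H933R3.simplex_ball (de 482) 4 (by decide +kernel)
  have h2 : realization LL = Sp LL := rfl
  exact ⟨(Homeomorph.setCongr h2).trans (e2.trans e3)⟩

/-! ### The boundary of the example -/

theorem mem_bdry {L : Finset (Finset ℕ)} {σ : Finset ℕ} : σ ∈ bdry L ↔
    ∃ F ∈ L, ∃ v ∈ F, (∀ G ∈ L, F.erase v ⊆ G → G = F) ∧ σ ⊆ F.erase v := Iff.rfl

theorem nb : ∀ p ∈ ([(1, 3), (2, 4), (3, 1), (4, 1), (5, 1), (6, 4)] : List (ℕ × ℕ)),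
    ¬ ∃ F ∈ LL, ∃ v ∈ F, (∀ G ∈ LL, F.erase v ⊆ G → G = F) ∧ ({p.1, p.2} : Finset ℕ) ⊆ F.erase v := by
  decide +kernel

theorem vb : ∀ z ∈ ([1, 3, 4] : List ℕ),
    ∃ F ∈ LL, ∃ v ∈ F, (∀ G ∈ LL, F.erase v ⊆ G → G = F) ∧ ({z} : Finset ℕ) ⊆ F.erase v := by
  decide +kernel

theorem four : ∃ F ∈ LL, ∃ v ∈ F, (∀ G ∈ LL, F.erase v ⊆ G → G = F) ∧
    ({1, 2, 6, 7} : Finset ℕ) ⊆ F.erase v := by decide +kernel

theorem LL_card : ∀ F ∈ LL, F.card = 5 := by decide +kernel

theorem LL_sub : ∀ F ∈ LL, ∀ v ∈ F, 1 ≤ v ∧ v ≤ 8 := by decide +kernel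

/-- only the vertices 7 and 8 are joined to all other vertices -/
theorem univ_vertex (y : ℕ) (hy : {y} ∈ bdry LL)
    (h : ∀ z, {z} ∈ bdry LL → z ≠ y → {z, y} ∈ bdry LL) : y = 7 ∨ y = 8 := by
  have hy8 : 1 ≤ y ∧ y ≤ 8 := by
    obtain ⟨F, hF, v, hv, -, hs⟩ := hy
    exact LL_sub F hF y (mem_of_mem_erase (hs (mem_singleton_self y)))
  by_contra hcon
  have hy6 : y ≤ 6 := by omega
  have key : ∀ z ∈ ([1, 3, 4] : List ℕ), z ≠ y → ({y, z} : Finset ℕ) ∈ bdry LL := by
    intro z hz hzy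
    have := h z (vb z hz) hzy
    rwa [pair_comm] at this
  obtain ⟨hy1, -⟩ := hy8
  interval_cases y
  · exact nb (1, 3) (by decide) (key 3 (by decide) (by norm_num))
  · exact nb (2, 4) (by decide) (key 4 (by decide) (by norm_num))
  · exact nb (3, 1) (by decide) (key 1 (by decide) (by norm_num))
  · exact nb (4, 1) (by decide) (key 1 (by decide) (by norm_num))
  · exact nb (5, 1) (by decide) (key 1 (by decide) (by norm_num))
  · exact nb (6, 4) (by decide) (key 4 (by decide) (by norm_num))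

end Pool.Agent.Helper221.SQ
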